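import Mathlib
import Pool.Agent.E8helper92.LOTSCountryman

set_option autoImplicit false

/-!
# Two hereditarily Lindelof topologies on `ω₁` from a coherent finite-to-one sequence
-/

namespace Pool.Agent.U111.Roth

open Set Pool.Agent.E8helper92.LOTS

/-- `β` lies lexicographically above `α`, the first difference being at `ξ` -/
def Spl (e : W1 → W1 → ℕ) (α β ξ : W1) : Prop := (∀ η, η < ξ → e α η = e β η) ∧ e α ξ < e β ξ

/-- the hypotheses on the coherent sequence -/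
structure Coh (e : W1 → W1 → ℕ) : Prop where
  zero : ∀ α ξ, α ≤ ξ → e α ξ = 0
  pos : ∀ α ξ, ξ < α → 1 ≤ e α ξ
  fto : ∀ α k, {ξ | ξ ≤ α ∧ e α ξ ≤ k}.Finite
  coh : ∀ α β, β ≤ α → {ξ | ξ ≤ β ∧ e α ξ ≠ e β ξ}.Finite

variable {e : W1 → W1 → ℕ}

instance W1_noMax : NoMaxOrder W1 :=
  ⟨fun a => let ⟨δ, hδ⟩ := W1_bounded (countable_singleton a); ⟨δ, hδ a rfl⟩⟩

theorem Spl.unique {α β ξ ζ : W1} (h : Spl e α β ξ) (h' : Spl e α β ζ) : ξ = ζ := by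
  rcases lt_trichotomy ξ ζ with h1 | h1 | h1
  · exact absurd (h'.1 ξ h1) h.2.ne
  · exact h1
  · exact absurd (h.1 ζ h1) h'.2.ne

theorem Spl.asymm {α β ξ ζ : W1} (h : Spl e α β ξ) (h' : Spl e β α ζ) : False := by
  rcases lt_trichotomy ξ ζ with h1 | h1 | h1
  · exact absurd (h'.1 ξ h1).symm h.2.ne
  · subst h1; exact lt_asymm h.2 h'.2
  · exact absurd (h.1 ζ h1).symm h'.2.ne

theorem Spl.le_left (he : Coh e) {α β ξ : W1} (h : Spl e α β ξ) : ξ ≤ α ∧ ξ < β := by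
  have h3 : ξ < β := by
    by_contra h4
    have := he.zero β ξ (not_lt.1 h4)
    have := h.2
    omega
  refine ⟨?_, h3⟩
  by_contra h4
  have h5 := h.1 α (not_le.1 h4)
  rw [he.zero α α le_rfl] at h5
  have h6 := he.pos β α ((not_le.1 h4).trans h3)
  omega

theorem exists_spl (he : Coh e) {α β : W1} (h : α ≠ β) : (∃ ξ, Spl e α β ξ) ∨ ∃ ξ, Spl e β α ξ := by
  classical
  have hne : {ξ | e α ξ ≠ e β ξ}.Nonempty := by
    rcases lt_or_gt_of_ne h with h1 | h1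
    · refine ⟨α, ?_⟩
      simp only [Set.mem_ofPred_eq]
      rw [he.zero α α le_rfl]
      have := he.pos β α h1
      omega
    · refine ⟨β, ?_⟩
      simp only [Set.mem_ofPred_eq]
      rw [he.zero β β le_rfl]
      have := he.pos α β h1
      omega
  have hwf : WellFounded (fun x y : W1 => x < y) := wellFounded_lt
  have h1 := hwf.min_mem _ hne
  have h2 : ∀ η, η < hwf.min _ hne → e α η = e β η := by
    intro η hη
    by_contra h3
    exact hwf.not_lt_min _ (x := η) h3 hη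
  rcases lt_or_gt_of_ne h1 with h3 | h3
  · exact Or.inl ⟨_, h2, h3⟩
  · exact Or.inr ⟨_, fun η hη => (h2 η hη).symm, h3⟩

/-- agreement below `δ` -/
def Agr (e : W1 → W1 → ℕ) (δ α β : W1) : Prop := ∀ η, η < δ → e α η = e β η

theorem Agr.symm {δ α β : W1} (h : Agr e δ α β) : Agr e δ β α := fun η hη => (h η hη).symm

theorem Agr.trans {δ α β γ : W1} (h : Agr e δ α β) (h' : Agr e δ β γ) : Agr e δ α γ :=
  fun η hη => (h η hη).trans (h' η hη)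

theorem Agr.mono {δ δ' α β : W1} (h : Agr e δ α β) (h' : δ' ≤ δ) : Agr e δ' α β :=
  fun η hη => h η (hη.trans_le h')

/-- every level is countable -/
theorem level_countable (he : Coh e) (δ : W1) : ∃ R : Set W1, R.Countable ∧ ∀ β, ∃ γ ∈ R, Agr e δ β γ := by
  classical
  let g : W1 → Set (W1 × ℕ) := fun β => {p | p.1 < δ ∧ p.2 = e β p.1 ∧ e β p.1 ≠ e δ p.1}
  have hg : g '' (Ici δ) ⊆ {t | t.Finite ∧ t ⊆ (Iio δ) ×ˢ (univ : Set ℕ)} := by
    rintro _ ⟨β, hβ, rfl⟩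
    refine ⟨?_, ?_⟩
    · have h1 := he.coh β δ hβ
      refine (h1.image fun ξ => (ξ, e β ξ)).subset ?_
      rintro ⟨ξ, k⟩ ⟨h2, h3, h4⟩
      simp only at h2 h3 h4
      exact ⟨ξ, ⟨h2.le, h4⟩, by simp [h3]⟩
    · rintro ⟨ξ, k⟩ ⟨h2, _, _⟩
      exact ⟨h2, mem_univ _⟩
  have hc : (g '' (Ici δ)).Countable :=
    (Set.countable_ofPred_finite_subset ((W1_Iio δ).prod countable_univ)).mono hg
  obtain ⟨R, hR1, hR2, hR3⟩ : ∃ R : Set W1, R ⊆ Ici δ ∧ R.Countable ∧ g '' R = g '' (Ici δ) := by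
    obtain ⟨R, h1, h2⟩ := (subset_image_iff.1 (subset_refl (g '' Ici δ)))
    have hex : ∀ y : g '' (Ici δ), ∃ x ∈ Ici δ, g x = y := fun y => y.2
    choose r hr1 hr2 using hex
    have := hc.to_subtype
    refine ⟨range r, ?_, countable_range r, ?_⟩
    · rintro _ ⟨y, rfl⟩
      exact hr1 y
    · apply Subset.antisymm
      · rintro _ ⟨_, ⟨y, rfl⟩, rfl⟩
        exact ⟨r y, hr1 y, rfl⟩
      · intro y hy
        exact ⟨r ⟨y, hy⟩, ⟨⟨y, hy⟩, rfl⟩, hr2 ⟨y, hy⟩⟩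
  refine ⟨Iio δ ∪ R, (W1_Iio δ).union hR2, fun β => ?_⟩
  rcases lt_or_ge β δ with h | h
  · exact ⟨β, Or.inl h, fun _ _ => rfl⟩
  · have h1 : g β ∈ g '' R := by
      rw [hR3]
      exact ⟨β, h, rfl⟩
    obtain ⟨γ, hγ, hγ2⟩ := h1
    refine ⟨γ, Or.inr hγ, fun η hη => ?_⟩
    by_cases h2 : e β η = e δ η
    · by_cases h3 : e γ η = e δ η
      · rw [h2, h3]
      · have h4 : (η, e γ η) ∈ g γ := ⟨hη, rfl, h3⟩
        rw [hγ2] at h4
        exact h4.2.1.symm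
    · have h4 : (η, e β η) ∈ g β := ⟨hη, rfl, h2⟩
      rw [← hγ2] at h4
      exact h4.2.1

/-- `β` is `(Γ, ξ)`-big when uncountably many members of `Γ` agree with it below `ξ` -/
def Big (e : W1 → W1 → ℕ) (Γ : Set W1) (ξ β : W1) : Prop := ¬ (Γ ∩ {γ | Agr e ξ β γ}).Countable

theorem Big.mono {Γ : Set W1} {ξ ζ β : W1} (h : Big e Γ ξ β) (h' : ζ ≤ ξ) : Big e Γ ζ β := by
  intro hc
  have hss : (Γ ∩ {γ | Agr e ξ β γ}) ⊆ (Γ ∩ {γ | Agr e ζ β γ}) := fun γ hγ => ⟨hγ.1, hγ.2.mono h'⟩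
  exact h (hc.mono hss)

theorem not_big_countable (he : Coh e) (Γ : Set W1) (ξ : W1) : {β | β ∈ Γ ∧ ¬ Big e Γ ξ β}.Countable := by
  obtain ⟨R, hR, hR2⟩ := level_countable he ξ
  have hsub : {β | β ∈ Γ ∧ ¬ Big e Γ ξ β} ⊆
      ⋃ γ ∈ R ∩ {γ | (Γ ∩ {β | Agr e ξ γ β}).Countable}, (Γ ∩ {β | Agr e ξ γ β}) := by
    rintro β ⟨hβ, hb⟩
    obtain ⟨γ, hγ, hγ2⟩ := hR2 β
    refine mem_iUnion₂.2 ⟨γ, ⟨hγ, ?_⟩, hβ, hγ2.symm⟩
    have hb2 : (Γ ∩ {γ | Agr e ξ β γ}).Countable := not_not.1 hb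
    have hss : (Γ ∩ {β | Agr e ξ γ β}) ⊆ (Γ ∩ {γ | Agr e ξ β γ}) := fun x hx => ⟨hx.1, hγ2.trans hx.2⟩
    exact hb2.mono hss
  refine Set.Countable.mono hsub ?_
  exact Set.Countable.biUnion (hR.mono inter_subset_left) fun γ hγ => hγ.2

theorem exists_big (he : Coh e) {Γ : Set W1} (hΓ : ¬ Γ.Countable) (ξ ζ : W1) :
    ∃ β ∈ Γ, Big e Γ ξ β ∧ ζ < β := by
  by_contra hcon
  push Not at hcon
  apply hΓ
  refine Set.Countable.mono ?_ ((not_big_countable he Γ ξ).union (W1_Iic ζ))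
  intro β hβ
  by_cases h : Big e Γ ξ β
  · exact Or.inr (hcon β hβ h)
  · exact Or.inl ⟨hβ, h⟩

/-- a set all of whose initial segments are finite is countable -/
theorem countable_of_initial_finite {B : Set W1} (hB : ∀ ζ, (B ∩ Iic ζ).Finite) : B.Countable := by
  by_contra hc
  have hinf : B.Infinite := fun h => hc (Set.Finite.countable h)
  let f := hinf.natEmbedding
  obtain ⟨δ, hδ⟩ := W1_bounded (countable_range fun n => (f n : W1))
  have h1 : (range fun n => (f n : W1)).Infinite :=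
    Set.infinite_range_of_injective (Subtype.val_injective.comp f.injective)
  refine h1 ((hB δ).subset ?_)
  rintro _ ⟨n, rfl⟩
  exact ⟨(f n).2, (hδ _ ⟨n, rfl⟩).le⟩

/-- **Splitting lemma.** -/
theorem splitting (he : Coh e) {Γ : Set W1} (hΓ : ¬ Γ.Countable) (n : ℕ) :
    ∃ Γ₁ Γ₂ : Set W1, Γ₁ ⊆ Γ ∧ Γ₂ ⊆ Γ ∧ ¬ Γ₁.Countable ∧ ¬ Γ₂.Countable ∧
      ∀ α ∈ Γ₁, ∀ β ∈ Γ₂, ∃ ξ, Spl e α β ξ ∧ n < e β ξ := by
  classical
  by_contra hcon
  -- the hypothesis for contradiction, in terms of nodes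
  have H : ∀ α β ξ, Agr e ξ α β → e α ξ < e β ξ → Big e Γ (Order.succ ξ) α → Big e Γ (Order.succ ξ) β →
      e β ξ ≤ n := by
    intro α β ξ h1 h2 h3 h4
    by_contra h5
    apply hcon
    refine ⟨Γ ∩ {γ | Agr e (Order.succ ξ) α γ}, Γ ∩ {γ | Agr e (Order.succ ξ) β γ}, inter_subset_left,
      inter_subset_left, h3, h4, ?_⟩
    rintro a ⟨_, ha⟩ b ⟨_, hb⟩
    have ha' : ∀ η, η ≤ ξ → e α η = e a η := fun η hη => ha η (Order.lt_succ_of_le hη)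
    have hb' : ∀ η, η ≤ ξ → e β η = e b η := fun η hη => hb η (Order.lt_succ_of_le hη)
    refine ⟨ξ, ⟨fun η hη => ?_, ?_⟩, ?_⟩
    · rw [← ha' η hη.le, ← hb' η hη.le, h1 η hη]
    · rw [← ha' ξ le_rfl, ← hb' ξ le_rfl]; exact h2
    · rw [← hb' ξ le_rfl]; omega
  -- Claim A
  have A : ∀ γ ξ, ∃ ζ, ξ ≤ ζ ∧ ∀ β ∈ Γ, Agr e ξ γ β → Big e Γ (Order.succ ζ) β → e β ζ ≤ n := by
    intro γ ξ
    by_cases hsp : ∃ η, ξ ≤ η ∧ ∃ β ∈ Γ, ∃ β' ∈ Γ, Agr e ξ γ β ∧ Agr e ξ γ β' ∧ Big e Γ (Order.succ η) β ∧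
        Big e Γ (Order.succ η) β' ∧ e β η ≠ e β' η
    · -- there is a splitting
      have hne : {η | ξ ≤ η ∧ ∃ β ∈ Γ, ∃ β' ∈ Γ, Agr e ξ γ β ∧ Agr e ξ γ β' ∧ Big e Γ (Order.succ η) β ∧
        Big e Γ (Order.succ η) β' ∧ e β η ≠ e β' η}.Nonempty := hsp
      have hwf : WellFounded (fun x y : W1 => x < y) := wellFounded_lt
      have h1 := hwf.min_mem _ hne
      have h2 : ∀ x, (ξ ≤ x ∧ ∃ β ∈ Γ, ∃ β' ∈ Γ, Agr e ξ γ β ∧ Agr e ξ γ β' ∧ Big e Γ (Order.succ x) β ∧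
          Big e Γ (Order.succ x) β' ∧ e β x ≠ e β' x) → ¬ x < hwf.min _ hne :=
        fun x hx => hwf.not_lt_min _ (x := x) hx
      obtain ⟨ζ, hζ⟩ : ∃ ζ, ζ = hwf.min _ hne := ⟨_, rfl⟩
      rw [← hζ] at h1
      have h3 : ∀ β ∈ Γ, ∀ β' ∈ Γ, Agr e ξ γ β → Agr e ξ γ β' → Big e Γ (Order.succ ζ) β →
          Big e Γ (Order.succ ζ) β' → Agr e ζ β β' := by
        intro β hβ β' hβ' ha ha' hb hb' η hη
        by_contra h4
        rcases lt_or_ge η ξ with h5 | h5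
        · exact h4 ((ha η h5).symm.trans (ha' η h5))
        · refine h2 η ⟨h5, β, hβ, β', hβ', ha, ha', hb.mono ?_, hb'.mono ?_, h4⟩ (hζ ▸ hη)
          · exact Order.succ_le_succ hη.le
          · exact Order.succ_le_succ hη.le
      obtain ⟨hξζ, β₀, hβ₀, β₁, hβ₁, ha₀, ha₁, hb₀, hb₁, hne'⟩ := h1
      refine ⟨ζ, hξζ, fun β hβ ha hb => ?_⟩
      have key : ∀ β' ∈ Γ, Agr e ξ γ β' → Big e Γ (Order.succ ζ) β' → e β ζ ≠ e β' ζ → e β ζ ≤ n := by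
        intro β' hβ' ha' hb' hne2
        have h4 := h3 β hβ β' hβ' ha ha' hb hb'
        rcases lt_or_gt_of_ne hne2 with h5 | h5
        · exact h5.le.trans (H β β' ζ h4 h5 hb hb')
        · exact H β' β ζ h4.symm h5 hb' hb
      by_cases h6 : e β ζ = e β₀ ζ
      · exact key β₁ hβ₁ ha₁ hb₁ (by rw [h6]; exact hne')
      · exact key β₀ hβ₀ ha₀ hb₀ h6
    · -- no splitting
      by_cases hc : (Γ ∩ {β | Agr e ξ γ β}).Countable
      · refine ⟨ξ, le_rfl, fun β hβ ha hb => ?_⟩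
        exfalso
        apply hb
        have hss : (Γ ∩ {x | Agr e (Order.succ ξ) β x}) ⊆ (Γ ∩ {β | Agr e ξ γ β}) :=
          fun x hx => ⟨hx.1, ha.trans (hx.2.mono (Order.le_succ ξ))⟩
        exact hc.mono hss
      · exfalso
        have hb : ∀ ζ, ∃ β, β ∈ Γ ∧ Agr e ξ γ β ∧ Big e Γ (Order.succ ζ) β ∧ ζ < β := by
          intro ζ
          obtain ⟨β, hβ, hβ2, hβ3⟩ := exists_big he hc (Order.succ ζ) ζ
          refine ⟨β, hβ.1, hβ.2, ?_, hβ3⟩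
          intro h
          have hss : ((Γ ∩ {β | Agr e ξ γ β}) ∩ {x | Agr e (Order.succ ζ) β x}) ⊆
              (Γ ∩ {x | Agr e (Order.succ ζ) β x}) := fun x hx => ⟨hx.1.1, hx.2⟩
          exact hβ2 (h.mono hss)
        choose bb hb1 hb2 hb3 hb4 using hb
        have hag : ∀ ζ η, ξ ≤ η → η ≤ ζ → e (bb η) η = e (bb ζ) η := by
          intro ζ η h1 h2
          by_contra h3
          exact hsp ⟨η, h1, bb η, hb1 η, bb ζ, hb1 ζ, hb2 η, hb2 ζ, hb3 η,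
            (hb3 ζ).mono (Order.succ_le_succ h2), h3⟩
        have hB : ∀ k, ({η | ξ ≤ η ∧ e (bb η) η ≤ k}).Countable := by
          intro k
          refine countable_of_initial_finite fun ζ => ?_
          refine (he.fto (bb ζ) k).subset ?_
          rintro η ⟨⟨h1, h2⟩, h3⟩
          refine ⟨(le_trans h3 (hb4 ζ).le), ?_⟩
          rw [← hag ζ η h1 h3]
          exact h2
        have huniv : (univ : Set W1) ⊆ Iio ξ ∪ ⋃ k, {η | ξ ≤ η ∧ e (bb η) η ≤ k} := by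
          intro η _
          rcases lt_or_ge η ξ with h | h
          · exact Or.inl h
          · exact Or.inr (mem_iUnion.2 ⟨e (bb η) η, h, le_rfl⟩)
        have := ((W1_Iio ξ).union (countable_iUnion hB)).mono huniv
        exact not_countable_univ_iff.2 W1_uncountable this
  choose Z hZ1 hZ2 using A
  -- the next level
  have hN : ∀ ξ, ∃ ξ', ξ < ξ' ∧ ∀ β ∈ Γ, Big e Γ ξ' β → ∃ ζ, ξ ≤ ζ ∧ ζ < ξ' ∧ e β ζ ≤ n := by
    intro ξ
    obtain ⟨R, hR, hR2⟩ := level_countable he ξ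
    obtain ⟨δ, hδ⟩ := W1_bounded ((hR.image fun γ => Z γ ξ).union (countable_singleton ξ))
    refine ⟨δ, hδ ξ (Or.inr rfl), fun β hβ hb => ?_⟩
    obtain ⟨γ, hγ, hγ2⟩ := hR2 β
    have h1 : Z γ ξ < δ := hδ _ (Or.inl ⟨γ, hγ, rfl⟩)
    exact ⟨Z γ ξ, hZ1 γ ξ, h1, hZ2 γ ξ β hβ hγ2.symm (hb.mono (Order.succ_le_of_lt h1))⟩
  choose N hN1 hN2 using hN
  have := W1_uncountable
  obtain ⟨x0⟩ : Nonempty W1 := inferInstance
  let s : ℕ → W1 := fun k => N^[k] x0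
  have hs : ∀ k, s (k + 1) = N (s k) := fun k => Function.iterate_succ_apply' N k x0
  have hsm : StrictMono s := strictMono_nat_of_lt_succ fun k => by rw [hs]; exact hN1 _
  obtain ⟨δ, hδ⟩ := W1_bounded (countable_range s)
  obtain ⟨β, hβ, hb, hδβ⟩ := exists_big he hΓ δ δ
  have hz : ∀ k, ∃ ζ, s k ≤ ζ ∧ ζ < s (k + 1) ∧ e β ζ ≤ n := by
    intro k
    rw [hs]
    exact hN2 (s k) β hβ (hb.mono (by rw [← hs]; exact (hδ _ ⟨_, rfl⟩).le))
  choose z hz1 hz2 hz3 using hz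
  have hzm : StrictMono z := strictMono_nat_of_lt_succ fun k => (hz2 k).trans_le (hz1 (k + 1))
  have hfin := he.fto β n
  refine Set.infinite_range_of_injective hzm.injective (hfin.subset ?_)
  rintro _ ⟨k, rfl⟩
  exact ⟨((hz2 k).trans (hδ _ ⟨_, rfl⟩)).le.trans hδβ.le, hz3 k⟩

end Pool.Agent.U111.Roth
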