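import Mathlib
import Pool.Agent.U111.RothA

set_option autoImplicit false

namespace Pool.Agent.U111.Roth

open Set Topology Pool.Agent.E8helper92.LOTS

variable {e : W1 → W1 → ℕ}

/-! ### neighbourhood systems -/

/-- an abstract neighbourhood system on `ω₁` -/
structure NSys where
  N : ℕ → W1 → Set W1
  self : ∀ n α, α ∈ N n α
  anti : ∀ n m α, n ≤ m → N m α ⊆ N n α
  opn : ∀ n α β, β ∈ N n α → ∃ m, N m β ⊆ N n α
  t1 : ∀ α β, α ≠ β → ∃ n, β ∉ N n α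
  rect : ∀ (Γ : Set W1) (n : ℕ), ¬ Γ.Countable → ∃ Γ₁ Γ₂ : Set W1, Γ₁ ⊆ Γ ∧ Γ₂ ⊆ Γ ∧ ¬ Γ₁.Countable ∧
    ¬ Γ₂.Countable ∧ ∀ α ∈ Γ₁, ∀ β ∈ Γ₂, β ∈ N n α
  ct : ∀ δ, ∃ R : Set W1, R.Countable ∧ ∀ β, ∃ γ ∈ R, ∀ α, α < δ → ∀ n, (β ∈ N n α ↔ γ ∈ N n α)

/-- its topology -/
def NSys.top (S : NSys) : TopologicalSpace W1 where
  IsOpen s := ∀ α ∈ s, ∃ n, S.N n α ⊆ s
  isOpen_univ := fun _ _ => ⟨0, subset_univ _⟩
  isOpen_inter := by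
    rintro s t hs ht α ⟨h1, h2⟩
    obtain ⟨n, hn⟩ := hs α h1
    obtain ⟨m, hm⟩ := ht α h2
    exact ⟨max n m, subset_inter ((S.anti _ _ _ (le_max_left _ _)).trans hn)
      ((S.anti _ _ _ (le_max_right _ _)).trans hm)⟩
  isOpen_sUnion := by
    rintro s hs α ⟨t, ht, hα⟩
    obtain ⟨n, hn⟩ := hs t ht α hα
    exact ⟨n, hn.trans (subset_sUnion_of_mem ht)⟩

theorem NSys.isOpen_iff (S : NSys) (s : Set W1) : IsOpen[S.top] s ↔ ∀ α ∈ s, ∃ n, S.N n α ⊆ s := Iff.rfl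

theorem NSys.isOpen_N (S : NSys) (n : ℕ) (α : W1) : IsOpen[S.top] (S.N n α) :=
  fun β hβ => S.opn n α β hβ

/-- Lindelof property, in the form needed -/
theorem NSys.lindelof (S : NSys) (Y : Set W1) (f : W1 → ℕ) :
    ∃ δ, ∀ β ∈ Y, ∃ α ∈ Y, α < δ ∧ β ∈ S.N (f α) α := by
  by_contra hcon
  push Not at hcon
  choose g hg1 hg2 using hcon
  have hge : ∀ δ, δ ≤ g δ := by
    intro δ
    by_contra h
    exact hg2 δ (g δ) (hg1 δ) (not_le.1 h) (S.self _ _)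
  -- the range is uncountable
  have hunc : ¬ (range g).Countable := by
    intro hc
    obtain ⟨δ, hδ⟩ := W1_bounded hc
    exact absurd (hδ _ ⟨δ, rfl⟩) (not_lt.2 (hge δ))
  obtain ⟨n, hn⟩ : ∃ n, ¬ (range g ∩ {x | f x = n}).Countable := by
    by_contra h
    push Not at h
    apply hunc
    refine (countable_iUnion h).mono ?_
    intro x hx
    exact mem_iUnion.2 ⟨f x, hx, rfl⟩
  obtain ⟨Γ₁, Γ₂, h1, h2, h3, h4, h5⟩ := S.rect _ n hn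
  have hne : Γ₁.Nonempty := by
    by_contra h
    rw [not_nonempty_iff_eq_empty] at h
    exact h3 (h ▸ countable_empty)
  obtain ⟨α, hα⟩ := hne
  obtain ⟨β, hβ, hβ2⟩ : ∃ β ∈ Γ₂, β ∉ g '' (Iic α) := by
    by_contra h
    push Not at h
    exact h4 (((W1_Iic α).image g).mono h)
  obtain ⟨δ, hδ⟩ := (h2 hβ).1
  have hδα : α < δ := by
    by_contra h
    exact hβ2 ⟨δ, not_lt.1 h, hδ⟩
  have h6 := h5 α hα β hβ
  obtain ⟨⟨δ', hδ'⟩, hfα⟩ := h1 hα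
  have hαY : α ∈ Y := hδ' ▸ hg1 δ'
  refine hg2 δ α hαY hδα ?_
  rw [hδ]
  rw [show f α = n from hfα]
  exact h6

/-- selection for subsets of a topological space -/
def SetRoth {X : Type} (τ : TopologicalSpace X) (Y : Set X) : Prop :=
  ∀ U : ℕ → Set (Set X), (∀ n, (U n).Nonempty) → (∀ n, ∀ u ∈ U n, IsOpen[τ] u) →
    (∀ n, Y ⊆ ⋃₀ U n) → ∃ s : ℕ → Set X, (∀ n, s n ∈ U n) ∧ Y ⊆ ⋃ n, s n

theorem NSys.setRoth (S : NSys) (Y : Set W1) : SetRoth S.top Y := by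
  classical
  intro U hne hU hY
  have h1 : ∀ k, ∀ α, ∃ O : Set W1, ∃ n, O ∈ U k ∧ (α ∈ Y → α ∈ O ∧ S.N n α ⊆ O) := by
    intro k α
    by_cases hα : α ∈ Y
    · obtain ⟨O, hO, hαO⟩ := hY k hα
      obtain ⟨n, hn⟩ := hU k O hO α hαO
      exact ⟨O, n, hO, fun _ => ⟨hαO, hn⟩⟩
    · obtain ⟨O, hO⟩ := hne k
      exact ⟨O, 0, hO, fun h => absurd h hα⟩
  choose O f hO hf using h1
  have h2 := fun k => S.lindelof Y (f k)
  choose d hd using h2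
  obtain ⟨δ, hδ⟩ := W1_bounded (countable_range d)
  obtain ⟨R, hR, hR2⟩ := S.ct δ
  have := W1_uncountable
  obtain ⟨x0⟩ : Nonempty W1 := inferInstance
  obtain ⟨γ0, hγ0, _⟩ := hR2 x0
  obtain ⟨r, hr⟩ := hR.exists_eq_range ⟨γ0, hγ0⟩
  have h3 : ∀ k, ∃ s ∈ U k, ∀ β ∈ Y, (∀ α, α < δ → ∀ n, (β ∈ S.N n α ↔ r k ∈ S.N n α)) → β ∈ s := by
    intro k
    by_cases hex : ∃ α ∈ Y, α < δ ∧ r k ∈ S.N (f k α) α
    · obtain ⟨α, hα, hαδ, hk⟩ := hex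
      refine ⟨O k α, hO k α, fun β _ hβ2 => ?_⟩
      exact (hf k α hα).2 ((hβ2 α hαδ _).2 hk)
    · obtain ⟨s, hs⟩ := hne k
      refine ⟨s, hs, fun β hβ hβ2 => ?_⟩
      exfalso
      obtain ⟨α, hα, hα2, hα3⟩ := hd k β hβ
      have hαδ := hα2.trans (hδ _ ⟨k, rfl⟩)
      exact hex ⟨α, hα, hαδ, (hβ2 α hαδ _).1 hα3⟩
  choose s hs1 hs2 using h3
  refine ⟨s, hs1, fun β hβ => ?_⟩
  obtain ⟨γ, hγ, hγ2⟩ := hR2 β
  rw [hr] at hγ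
  obtain ⟨k, rfl⟩ := hγ
  exact mem_iUnion.2 ⟨k, hs2 k β hβ hγ2⟩

/-! ### the two systems -/

/-- upper neighbourhoods -/
def Up (e : W1 → W1 → ℕ) (n : ℕ) (α : W1) : Set W1 := {d | d = α ∨ ∃ ξ, Spl e α d ξ ∧ n < e d ξ}

/-- lower neighbourhoods -/
def Dn (e : W1 → W1 → ℕ) (n : ℕ) (β : W1) : Set W1 := {d | d = β ∨ ∃ ξ, Spl e d β ξ ∧ n < e β ξ}

theorem agr_mem_aux (he : Coh e) {δ α β γ : W1} (hα : α < δ) (h : Agr e δ β γ) (hb : β = α) : γ = α := by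
  subst hb
  have h1 := h β hα
  rw [he.zero β β le_rfl] at h1
  rcases lt_trichotomy γ β with h2 | h2 | h2
  · have h3 := h γ (h2.trans hα)
    rw [he.zero γ γ le_rfl] at h3
    have := he.pos β γ h2
    omega
  · exact h2
  · have := he.pos γ β h2
    omega

theorem up_trans (he : Coh e) {n : ℕ} {α d x : W1} (h1 : d ∈ Up e n α) (h2 : x ∈ Up e n d) : x ∈ Up e n α := by
  rcases h1 with rfl | ⟨ξ, ⟨h3, h4⟩, h5⟩
  · exact h2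
  rcases h2 with rfl | ⟨η, ⟨h6, h7⟩, h8⟩
  · exact Or.inr ⟨ξ, ⟨h3, h4⟩, h5⟩
  right
  rcases lt_trichotomy η ξ with h9 | h9 | h9
  · refine ⟨η, ⟨fun ζ hζ => (h3 ζ (hζ.trans h9)).trans (h6 ζ hζ), ?_⟩, h8⟩
    rw [h3 η h9]; exact h7
  · subst h9
    exact ⟨η, ⟨fun ζ hζ => (h3 ζ hζ).trans (h6 ζ hζ), h4.trans h7⟩, h8⟩
  · refine ⟨ξ, ⟨fun ζ hζ => (h3 ζ hζ).trans (h6 ζ (hζ.trans h9)), ?_⟩, ?_⟩
    · rw [← h6 ξ h9]; exact h4
    · rw [← h6 ξ h9]; exact h5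

theorem dn_trans (he : Coh e) {n : ℕ} {β d x : W1} (h1 : d ∈ Dn e n β) (h2 : x ∈ Dn e n d) : x ∈ Dn e n β := by
  rcases h1 with rfl | ⟨ξ, ⟨h3, h4⟩, h5⟩
  · exact h2
  rcases h2 with rfl | ⟨η, ⟨h6, h7⟩, h8⟩
  · exact Or.inr ⟨ξ, ⟨h3, h4⟩, h5⟩
  right
  rcases lt_trichotomy η ξ with h9 | h9 | h9
  · refine ⟨η, ⟨fun ζ hζ => (h6 ζ hζ).trans (h3 ζ (hζ.trans h9)), ?_⟩, ?_⟩
    · rw [← h3 η h9]; exact h7
    · rw [← h3 η h9]; exact h8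
  · subst h9
    exact ⟨η, ⟨fun ζ hζ => (h6 ζ hζ).trans (h3 ζ hζ), h7.trans h4⟩, h5⟩
  · refine ⟨ξ, ⟨fun ζ hζ => (h6 ζ (hζ.trans h9)).trans (h3 ζ hζ), ?_⟩, h5⟩
    rw [h6 ξ h9]; exact h4

/-- the upper system -/
def upSys (he : Coh e) : NSys where
  N := Up e
  self := fun _ _ => Or.inl rfl
  anti := by
    rintro n m α hnm d (rfl | ⟨ξ, h1, h2⟩)
    · exact Or.inl rfl
    · exact Or.inr ⟨ξ, h1, hnm.trans_lt h2⟩
  opn := fun n α β hβ => ⟨n, fun x hx => up_trans he hβ hx⟩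
  t1 := by
    intro α β hne
    by_cases h : ∃ ξ, Spl e α β ξ
    · obtain ⟨ξ, hξ⟩ := h
      refine ⟨e β ξ, ?_⟩
      rintro (h | ⟨ζ, h1, h2⟩)
      · exact hne h.symm
      · rw [← hξ.unique h1] at h2
        exact lt_irrefl _ h2
    · refine ⟨0, ?_⟩
      rintro (h' | ⟨ζ, h1, h2⟩)
      · exact hne h'.symm
      · exact h ⟨ζ, h1⟩
  rect := by
    intro Γ n hΓ
    obtain ⟨Γ₁, Γ₂, h1, h2, h3, h4, h5⟩ := splitting he hΓ n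
    exact ⟨Γ₁, Γ₂, h1, h2, h3, h4, fun α hα β hβ => Or.inr (h5 α hα β hβ)⟩
  ct := by
    intro δ
    obtain ⟨R, hR, hR2⟩ := level_countable he δ
    refine ⟨R, hR, fun β => ?_⟩
    obtain ⟨γ, hγ, hγ2⟩ := hR2 β
    refine ⟨γ, hγ, ?_⟩
    have key : ∀ β γ : W1, Agr e δ β γ → ∀ α, α < δ → ∀ n, β ∈ Up e n α → γ ∈ Up e n α := by
      intro β γ h α hα n hβ
      rcases hβ with h1 | ⟨ξ, h1, h2⟩
      · exact Or.inl (agr_mem_aux he hα h h1)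
      · have hξ : ξ < δ := (h1.le_left he).1.trans_lt hα
        refine Or.inr ⟨ξ, ⟨fun η hη => (h1.1 η hη).trans (h η (hη.trans hξ)), ?_⟩, ?_⟩
        · rw [← h ξ hξ]; exact h1.2
        · rw [← h ξ hξ]; exact h2
    exact fun α hα n => ⟨key β γ hγ2 α hα n, key γ β hγ2.symm α hα n⟩

/-- the lower system -/
def dnSys (he : Coh e) : NSys where
  N := Dn e
  self := fun _ _ => Or.inl rfl
  anti := by
    rintro n m α hnm d (rfl | ⟨ξ, h1, h2⟩)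
    · exact Or.inl rfl
    · exact Or.inr ⟨ξ, h1, hnm.trans_lt h2⟩
  opn := fun n α β hβ => ⟨n, fun x hx => dn_trans he hβ hx⟩
  t1 := by
    intro α β hne
    by_cases h : ∃ ξ, Spl e β α ξ
    · obtain ⟨ξ, hξ⟩ := h
      refine ⟨e α ξ, ?_⟩
      rintro (h | ⟨ζ, h1, h2⟩)
      · exact hne h.symm
      · rw [← hξ.unique h1] at h2
        exact lt_irrefl _ h2
    · refine ⟨0, ?_⟩
      rintro (h' | ⟨ζ, h1, h2⟩)
      · exact hne h'.symm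
      · exact h ⟨ζ, h1⟩
  rect := by
    intro Γ n hΓ
    obtain ⟨Γ₁, Γ₂, h1, h2, h3, h4, h5⟩ := splitting he hΓ n
    exact ⟨Γ₂, Γ₁, h2, h1, h4, h3, fun α hα β hβ => Or.inr (h5 β hβ α hα)⟩
  ct := by
    intro δ
    obtain ⟨R, hR, hR2⟩ := level_countable he δ
    refine ⟨R, hR, fun β => ?_⟩
    obtain ⟨γ, hγ, hγ2⟩ := hR2 β
    refine ⟨γ, hγ, ?_⟩
    have key : ∀ β γ : W1, Agr e δ β γ → ∀ α, α < δ → ∀ n, β ∈ Dn e n α → γ ∈ Dn e n α := by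
      intro β γ h α hα n hβ
      rcases hβ with h1 | ⟨ξ, h1, h2⟩
      · exact Or.inl (agr_mem_aux he hα h h1)
      · have hξ : ξ < δ := (h1.le_left he).2.trans hα
        refine Or.inr ⟨ξ, ⟨fun η hη => (h η (hη.trans hξ)).symm.trans (h1.1 η hη), ?_⟩, h2⟩
        rw [← h ξ hξ]; exact h1.2
    exact fun α hα n => ⟨key β γ hγ2 α hα n, key γ β hγ2.symm α hα n⟩

/-- the two systems are orthogonal -/
theorem orth (he : Coh e) (α β : W1) : ∃ n, Up e n α ∩ Dn e n β ⊆ {α} := by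
  by_cases hαβ : α = β
  · subst hαβ
    refine ⟨0, ?_⟩
    rintro x ⟨h1, h2⟩
    rcases h1 with h | ⟨ξ, h1, _⟩
    · exact h
    rcases h2 with h | ⟨η, h2, _⟩
    · exact h
    exact (h1.asymm h2).elim
  by_cases h : ∃ ξ, Spl e α β ξ
  · obtain ⟨ξ, hξ⟩ := h
    refine ⟨e β ξ, ?_⟩
    rintro x ⟨h1, h2⟩
    rcases h1 with h | ⟨ζ, h1, h1'⟩
    · exact h
    exfalso
    rcases h2 with h | ⟨η, h2, h2'⟩
    · subst h
      rw [← hξ.unique h1] at h1'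
      exact lt_irrefl _ h1'
    rcases lt_trichotomy ζ η with h9 | h9 | h9
    · -- `Δ(α,β) = ζ`
      have h3 : Spl e α β ζ := ⟨fun θ hθ => (h1.1 θ hθ).trans (h2.1 θ (hθ.trans h9)), by
        rw [← h2.1 ζ h9]; exact h1.2⟩
      rw [hξ.unique h3, ← h2.1 ζ h9] at h1'
      exact lt_irrefl _ h1'
    · subst h9
      have h3 : Spl e α β ζ := ⟨fun θ hθ => (h1.1 θ hθ).trans (h2.1 θ hθ), h1.2.trans h2.2⟩
      rw [hξ.unique h3] at h2'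
      exact lt_irrefl _ h2'
    · have h3 : Spl e α β η := ⟨fun θ hθ => (h1.1 θ (hθ.trans h9)).trans (h2.1 θ hθ), by
        rw [h1.1 η h9]; exact h2.2⟩
      rw [hξ.unique h3] at h2'
      exact lt_irrefl _ h2'
  · -- `β` is below `α`
    obtain ⟨ξ, hξ⟩ := (exists_spl he hαβ).resolve_left h
    refine ⟨0, ?_⟩
    rintro x ⟨h1, h2⟩
    rcases h1 with h | ⟨ζ, h1, _⟩
    · exact h
    exfalso
    rcases h2 with h | ⟨η, h2, _⟩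
    · subst h
      exact h ⟨ζ, h1⟩
    -- α < x < β < α
    rcases lt_trichotomy ζ η with h9 | h9 | h9
    · exact h ⟨ζ, fun θ hθ => (h1.1 θ hθ).trans (h2.1 θ (hθ.trans h9)), by
        rw [← h2.1 ζ h9]; exact h1.2⟩
    · subst h9
      exact h ⟨ζ, fun θ hθ => (h1.1 θ hθ).trans (h2.1 θ hθ), h1.2.trans h2.2⟩
    · exact h ⟨η, fun θ hθ => (h1.1 θ (hθ.trans h9)).trans (h2.1 θ hθ), by
        rw [h1.1 η h9]; exact h2.2⟩

end Pool.Agent.U111.Roth
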