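import Pool.Agent.V11258.BG.Cond

set_option autoImplicit false

/-!
# Fusion for countably many continuous operations

For a countable family of continuous finitary operations on Cantor space with values in a space `T`
we shrink a countable family of perfect sets so that one member of each of countably many families of
Borel subsets of `T` eventually contains every value of the operations on the reservoir.
-/

namespace Pool.Agent.U111.BGGroup

open Pool.Agent.V11258.BG Pool.Agent.V11258.BG.Emb Set Filter Topology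

/-- A continuous finitary operation on Cantor space with values in `T`. -/
structure Op (T : Type) [TopologicalSpace T] where
  /-- arity -/
  r : ℕ
  /-- the map -/
  w : (Fin r → C) → T
  cont : Continuous w

variable {T : Type} [TopologicalSpace T]

/-- All values of the operations at tuples from `S`. -/
def WW (w : ℕ → Op T) (S : Set C) : Set T :=
  {g | ∃ i, ∃ z : Fin (w i).r → C, (∀ a, z a ∈ S) ∧ (w i).w z = g}

theorem WW_mono (w : ℕ → Op T) {S S' : Set C} (h : S ⊆ S') : WW w S ⊆ WW w S' := by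
  rintro g ⟨i, z, hz, rfl⟩
  exact ⟨i, z, fun a => h (hz a), rfl⟩

/-- The points of a condition: the chosen points and the points of the perfect sets. -/
def pts (p : Cond) : Set C := p.Y ∪ ⋃ i, range (p.ψ i).f

/-- Index set of the points available at step `k`. -/
abbrev J (k : ℕ) : Type := Fin k ⊕ (Fin k × (Fin k → Bool))

/-- The point with a given index. -/
def pt (k : ℕ) (a : ℕ → C) (v : Fin k × (Fin k → Bool) → C) : J k → C
  | Sum.inl u => a u
  | Sum.inr b => v b

theorem continuous_pt (k : ℕ) (a : ℕ → C) (j : J k) :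
    Continuous fun v : Fin k × (Fin k → Bool) → C => pt k a v j := by
  cases j with
  | inl u => exact continuous_const
  | inr b => exact continuous_apply b

/-- The property guaranteed at step `k`. -/
def Good (w : ℕ → Op T) (B : ℕ → Set T) (a : ℕ → C) (k : ℕ) (f : ℕ → Emb) : Prop :=
  ∃ m, ∀ y : Fin k × (Fin k → Bool) → C, (∀ b, res k (y b) = b.2) →
    ∀ i < k, ∀ j : Fin (w i).r → J k,
      (w i).w (fun c => pt k a (fun b => (f b.1).f (y b)) (j c)) ∈ B m

section Fusion

variable [MeasurableSpace T] [BorelSpace T]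

theorem step_good (w : ℕ → Op T) (B : ℕ → Set T) (hB : ∀ m, MeasurableSet (B m)) (a : ℕ → C)
    (k : ℕ) (f : ℕ → Emb)
    (hcov : ∀ F : Set T, F.Finite → F ⊆ WW w (range a ∪ ⋃ i, range (f i).f) → ∃ m, F ⊆ B m) :
    ∃ h : ℕ → Emb, (∀ t, Near k (h t)) ∧ (∀ t, k ≤ t → h t = Emb.id) ∧
      Good w B a k (fun t => (f t).comp (h t)) := by
  classical
  -- the pieces
  let g : (Fin k × (Fin k → Bool) → C) → (Fin k × (Fin k → Bool) → C) :=
    fun v b => (f b.1).f (cat k b.2 (v b))
  have hg : Continuous g := by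
    refine continuous_pi fun b => ?_
    exact (f b.1).continuous.comp ((catE k b.2).continuous.comp (continuous_apply b))
  let A : ℕ → Set (Fin k × (Fin k → Bool) → C) := fun m =>
    {v | ∀ i < k, ∀ j : Fin (w i).r → J k, (w i).w (fun c => pt k a (g v) (j c)) ∈ B m}
  have hA : ∀ m, MeasurableSet (A m) := by
    intro m
    have : A m = ⋂ i : Fin k, ⋂ j : Fin (w i).r → J k,
        (fun v => (w i).w (fun c => pt k a (g v) (j c))) ⁻¹' (B m) := by
      ext v
      simp only [A, mem_iInter, mem_preimage]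
      exact ⟨fun h i j => h i i.2 j, fun h i hi j => h ⟨i, hi⟩ j⟩
    rw [this]
    refine MeasurableSet.iInter fun i => MeasurableSet.iInter fun j => ?_
    have hc : Continuous (fun v => (w i).w (fun c => pt k a (g v) (j c))) := by
      refine (w i).cont.comp (continuous_pi fun c => ?_)
      exact (continuous_pt k a (j c)).comp hg
    exact hc.measurable (hB m)
  have hcovA : ∀ v, ∃ m, v ∈ A m := by
    intro v
    let F : Set T := {x | ∃ i : Fin k, ∃ j : Fin (w i).r → J k,
      (w i).w (fun c => pt k a (g v) (j c)) = x}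
    have hF : F.Finite := by
      have : F = ⋃ i : Fin k, range fun j : Fin (w i).r → J k =>
          (w i).w (fun c => pt k a (g v) (j c)) := by
        ext x; simp [F]
      rw [this]
      exact finite_iUnion fun i => finite_range _
    obtain ⟨m, hm⟩ := hcov F hF (by
      rintro x ⟨i, j, rfl⟩
      refine ⟨i, _, fun c => ?_, rfl⟩
      cases hj : j c with
      | inl u => exact Or.inl ⟨u, rfl⟩
      | inr b => exact Or.inr (mem_iUnion.mpr ⟨b.1, ⟨_, rfl⟩⟩))
    exact ⟨m, fun i hi j => hm ⟨⟨i, hi⟩, j, rfl⟩⟩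
  obtain ⟨m, η, hη⟩ := cover_step A (fun m => (hA m).baireMeasurableSet) hcovA
  refine ⟨fun t => if ht : t < k then node k (fun s => η (⟨t, ht⟩, s)) else Emb.id, ?_, ?_, m, ?_⟩
  · intro t
    by_cases ht : t < k
    · simp only [ht, dite_true]; exact near_node _ _
    · simp only [ht, dite_false]; exact near_id _
  · intro t ht
    simp only [not_lt.mpr ht, dite_false]
  · intro y hy i hi j
    have key := hη (fun b => sh k (y b)) i hi j
    have e : (fun b : Fin k × (Fin k → Bool) => ((f b.1).comp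
        (if ht : (b.1 : ℕ) < k then node k (fun s => η (⟨b.1, ht⟩, s)) else Emb.id)).f (y b)) =
        g (pm η fun b => sh k (y b)) := by
      funext b
      simp only [b.1.2, dite_true]
      show (f b.1).f (cat k (res k (y b)) ((η (⟨b.1, b.1.2⟩, res k (y b))).f (sh k (y b)))) =
        (f b.1).f (cat k b.2 ((η b).f (sh k (y b))))
      rw [hy b]
    simp only [e]
    exact key

/-- The main fusion. -/
theorem fusion (w : ℕ → Op T) (B : ℕ → ℕ → Set T) (hB : ∀ n m, MeasurableSet (B n m)) (p : Cond)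
    (hcov : ∀ n, ∀ F : Set T, F.Finite → F ⊆ WW w (pts p) → ∃ m, F ⊆ B n m) :
    ∃ q, Le q p ∧ ∃ f : ℕ → ℕ, ∀ g ∈ WW w (pts q), ∀ᶠ n in atTop, g ∈ B n (f n) := by
  classical
  -- enumeration of the chosen points
  obtain ⟨a, haY, hap⟩ : ∃ a : ℕ → C, p.Y ⊆ range a ∧ range a ⊆ pts p := by
    by_cases hne : p.Y.Nonempty
    · obtain ⟨a, ha⟩ := p.cnt.exists_eq_range hne
      exact ⟨a, ha.subset, ha.symm.subset.trans subset_union_left⟩
    · rw [not_nonempty_iff_eq_empty] at hne
      refine ⟨fun _ => (p.ψ 0).f (fun _ => false), by simp [hne], ?_⟩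
      rintro _ ⟨_, rfl⟩
      exact Or.inr (mem_iUnion.mpr ⟨0, _, rfl⟩)
  let f0 : ℕ → Emb := fun t => p.ψ (Nat.unpair t).1
  have hstep : ∀ (k : ℕ) (f : ℕ → Emb), (∀ t, range (f t).f ⊆ range (f0 t).f) →
      ∃ h : ℕ → Emb, (∀ t, Near k (h t)) ∧ (∀ t, k ≤ t → h t = Emb.id) ∧
        Good w (B k) a k (fun t => (f t).comp (h t)) := by
    intro k f hf
    refine step_good w (B k) (hB k) a k f fun F hF hFs => hcov k F hF (hFs.trans (WW_mono w ?_))
    refine union_subset hap ?_
    refine iUnion_subset fun t => ?_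
    intro x hx
    exact Or.inr (mem_iUnion.mpr ⟨_, hf t hx⟩)
  choose! h h1 h2 h3 using hstep
  -- states
  let st : ℕ → (ℕ → Emb) := fun n => Nat.rec f0 (fun k f => fun t => (f t).comp (h k f t)) n
  have hst : ∀ n, ∀ t, range ((st n) t).f ⊆ range (f0 t).f := by
    intro n
    induction n with
    | zero => intro t; exact subset_rfl
    | succ n ih =>
      intro t
      rintro _ ⟨x, rfl⟩
      exact ih t ⟨_, rfl⟩
  let R : ℕ → ℕ → Emb := fun t k => h k (st k) t
  have hR : ∀ t j, Near j (R t j) := fun t j => h1 j (st j) (hst j) t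
  have hpr : ∀ n t x, ((st n) t).f x = (f0 t).f ((pr (R t) 0 n).f x) := by
    intro n
    induction n with
    | zero => intro t x; rfl
    | succ n ih =>
      intro t x
      rw [pr_succ', ← ih, Nat.zero_add]
      rfl
  let ψ : ℕ → Emb := fun t => (f0 t).comp (tl (R t) (hR t) 0)
  have hψ : ∀ t n x, (ψ t).f x = ((st (n+1)) t).f ((tl (R t) (hR t) (n+1)).f x) := by
    intro t n x
    have e1 := hpr (n+1) t ((tl (R t) (hR t) (n+1)).f x)
    rw [e1]
    show (f0 t).f ((tl (R t) (hR t) 0).f x) = _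
    rw [tl_pr (R t) (hR t) 0 (n+1), Nat.zero_add]
  have hmlevel := fun k => h3 k (st k) (hst k)
  choose m hm using hmlevel
  refine ⟨⟨ψ, p.Y, p.cnt⟩, ⟨?_, ?_, subset_rfl, fun x hx => Or.inl hx⟩, m, ?_⟩
  · intro i n
    refine ⟨Nat.pair i n, tl (R (Nat.pair i n)) (hR _) 0, ?_, fun z => ?_⟩
    · refine tl_near _ _ fun l _ => ?_
      by_cases hl : l ≤ Nat.pair i n
      · have : R (Nat.pair i n) l = Emb.id := h2 l (st l) (hst l) _ hl
        rw [this]; exact near_id _
      · exact (hR _ l).mono ((Nat.right_le_pair i n).trans (not_le.mp hl).le)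
    · show (f0 _).f _ = _
      simp only [f0, Nat.unpair_pair]
  · intro t
    exact ⟨(Nat.unpair t).1, by rintro _ ⟨x, rfl⟩; exact ⟨_, rfl⟩⟩
  · rintro g ⟨i, z, hz, rfl⟩
    -- describe the coordinates
    have hdesc : ∀ c, (∃ u, z c = a u) ∨ ∃ t x, z c = (ψ t).f x := by
      intro c
      rcases hz c with h | h
      · obtain ⟨u, hu⟩ := haY h
        exact Or.inl ⟨u, hu.symm⟩
      · obtain ⟨t, x, hx⟩ := mem_iUnion.mp h
        exact Or.inr ⟨t, x, hx.symm⟩
    choose! u t x hux using fun c => (show ∃ u t x, z c = a u ∨ z c = (ψ t).f x from by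
      rcases hdesc c with ⟨u, hu⟩ | ⟨t, x, hx⟩
      · exact ⟨u, 0, fun _ => false, Or.inl hu⟩
      · exact ⟨0, t, x, Or.inr hx⟩)
    have hsep : ∀ c c', ∃ d, x c ≠ x c' → ¬ Agr d (x c) (x c') := by
      intro c c'
      by_cases hcc : x c = x c'
      · exact ⟨0, fun h => absurd hcc h⟩
      · obtain ⟨d, hd⟩ := Function.ne_iff.mp hcc
        exact ⟨d+1, fun _ hag => hd (hag d (Nat.lt_succ_self d))⟩
    choose d hd using hsep
    have hev : ∀ᶠ k in atTop, i < k ∧ (∀ c, u c < k) ∧ (∀ c, t c < k) ∧ ∀ c c', d c c' ≤ k := by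
      refine (eventually_gt_atTop i).and ?_
      refine (eventually_all.mpr fun c => eventually_gt_atTop (u c)).and ?_
      refine (eventually_all.mpr fun c => eventually_gt_atTop (t c)).and ?_
      exact eventually_all.mpr fun c => eventually_all.mpr fun c' => eventually_ge_atTop (d c c')
    refine hev.mono ?_
    rintro k ⟨hik, hu, ht, hdk⟩
    -- the points of the pieces
    let y : Fin k × (Fin k → Bool) → C := fun b =>
      if hb : ∃ c, t c = b.1 ∧ res k (x c) = b.2 then
        (tl (R b.1) (hR _) (k+1)).f (x hb.choose)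
      else cat k b.2 (fun _ => false)
    have hy : ∀ b, res k (y b) = b.2 := by
      intro b
      by_cases hb : ∃ c, t c = b.1 ∧ res k (x c) = b.2
      · simp only [y, hb, dite_true]
        have hn : Agr k ((tl (R b.1) (hR _) (k+1)).f (x hb.choose)) (x hb.choose) :=
          (tl_near (R b.1) (hR _) (N := k) fun l hl => (hR _ l).mono (by omega)) _
        rw [res_eq_iff.mpr hn]
        exact hb.choose_spec.2
      · simp only [y, hb, dite_false, res_cat]
    have hyx : ∀ c, y (⟨t c, ht c⟩, res k (x c)) = (tl (R (t c)) (hR _) (k+1)).f (x c) := by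
      intro c
      have hb : ∃ c', t c' = ((⟨t c, ht c⟩ : Fin k) : ℕ) ∧ res k (x c') = res k (x c) :=
        ⟨c, rfl, rfl⟩
      have hxx : x hb.choose = x c := by
        by_contra hne
        refine hd _ _ hne ?_
        exact (res_eq_iff.mp hb.choose_spec.2).mono (hdk _ _)
      show (if hb : ∃ c', t c' = ((⟨t c, ht c⟩ : Fin k) : ℕ) ∧ res k (x c') = res k (x c) then
        (tl (R (t c)) (hR _) (k+1)).f (x hb.choose) else _) = _
      rw [dif_pos hb, hxx]
    let j : Fin (w i).r → J k := fun c =>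
      if z c = a (u c) then Sum.inl ⟨u c, hu c⟩ else Sum.inr (⟨t c, ht c⟩, res k (x c))
    have key := hm k y hy i hik j
    have e : (fun c => pt k a (fun b => ((st k b.1).comp (h k (st k) b.1)).f (y b)) (j c)) = z := by
      funext c
      by_cases hc : z c = a (u c)
      · simp only [j, hc, if_true]
        rfl
      · simp only [j, hc, if_false]
        have h4 : z c = (ψ (t c)).f (x c) := (hux c).resolve_left hc
        show ((st (k+1)) (t c)).f (y (⟨t c, ht c⟩, res k (x c))) = z c
        rw [hyx, h4, hψ (t c) k]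
    rw [e] at key
    exact key

end Fusion

/-- The dichotomy for one task. -/
theorem dense_task [MeasurableSpace T] [BorelSpace T] (w : ℕ → Op T) (B : ℕ → ℕ → Set T)
    (hB : ∀ n m, MeasurableSet (B n m)) (p : Cond) :
    ∃ q, Le q p ∧ ((∃ n, ∃ F : Set T, F.Finite ∧ F ⊆ WW w q.Y ∧ ∀ m, ¬ F ⊆ B n m) ∨
      ∃ f : ℕ → ℕ, ∀ g ∈ WW w (pts q), ∀ᶠ n in atTop, g ∈ B n (f n)) := by
  classical
  by_cases hcov : ∀ n, ∀ F : Set T, F.Finite → F ⊆ WW w (pts p) → ∃ m, F ⊆ B n m
  · obtain ⟨q, h1, h2⟩ := fusion w B hB p hcov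
    exact ⟨q, h1, Or.inr h2⟩
  · push Not at hcov
    obtain ⟨n, F, hF, hFp, hFB⟩ := hcov
    have : ∀ g : F, ∃ E : Set C, E.Finite ∧ E ⊆ pts p ∧ (g : T) ∈ WW w E := by
      rintro ⟨g, hg⟩
      obtain ⟨i, z, hz, rfl⟩ := hFp hg
      exact ⟨range z, finite_range z, by rintro _ ⟨c, rfl⟩; exact hz c,
        i, z, fun c => ⟨c, rfl⟩, rfl⟩
    choose E hE1 hE2 hE3 using this
    have hfin : Finite F := hF
    refine ⟨⟨p.ψ, p.Y ∪ ⋃ g, E g, p.cnt.union (countable_iUnion fun g => (hE1 g).countable)⟩,
      ⟨fun i n => ⟨i, Emb.id, near_id n, fun _ => rfl⟩, fun j => ⟨j, subset_rfl⟩,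
        subset_union_left, ?_⟩, Or.inl ⟨n, F, hF, ?_, hFB⟩⟩
    · rintro x (hx | hx)
      · exact Or.inl hx
      · obtain ⟨g, hg⟩ := mem_iUnion.mp hx
        rcases hE2 g hg with h | h
        · exact Or.inl h
        · exact Or.inr (mem_iUnion.mp h)
    · intro g hg
      refine WW_mono w ?_ (hE3 ⟨g, hg⟩)
      exact (subset_iUnion E ⟨g, hg⟩).trans subset_union_right

/-- New points can be added. -/
theorem dense_point (p : Cond) {S : Set C} (hS : S.Countable) :
    ∃ q, Le q p ∧ ∃ y ∈ q.Y, y ∉ S := by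
  have hunc : ¬ (range (p.ψ 0).f).Countable := by
    intro h
    have h4 : Cardinal.mk C = Cardinal.continuum := by
      simp
    have h1 : Countable C := by
      have h2 : (univ : Set C).Countable := by
        rw [← image_univ] at h
        exact countable_of_injective_of_countable_image (p.ψ 0).inj.injOn h
      exact countable_univ_iff.mp h2
    have h3 := Cardinal.mk_le_aleph0_iff.mpr h1
    rw [h4] at h3
    exact absurd h3 (not_le.mpr Cardinal.aleph0_lt_continuum)
  obtain ⟨y, hy, hyS⟩ : ∃ y ∈ range (p.ψ 0).f, y ∉ S := by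
    by_contra hcon
    push Not at hcon
    exact hunc (hS.mono hcon)
  refine ⟨⟨p.ψ, insert y p.Y, p.cnt.insert y⟩, ⟨fun i n => ⟨i, Emb.id, near_id n, fun _ => rfl⟩,
    fun j => ⟨j, subset_rfl⟩, subset_insert _ _, ?_⟩, y, mem_insert _ _, hyS⟩
  rintro x (rfl | hx)
  · exact Or.inr ⟨0, hy⟩
  · exact Or.inl hx

end Pool.Agent.U111.BGGroup
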