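import Pool.Agent.U111.BGGroup

set_option autoImplicit false

/-!
# A set of points with the selection property for all finite integer combinations (under CH)
-/

namespace Pool.Agent.U111.BGMain

open Pool.Agent.V11258.BG Pool.Agent.V11258.BG.Emb Pool.Agent.U111.BGGroup Set Filter Topology
open Cardinal

/-- The target space. -/
abbrev T : Type := ℕ → ℕ → ℤ

/-- The embedding of Cantor space in the space of integer sequences. -/
def e (x : C) : ℕ → ℤ := fun i => if x i then 1 else 0

theorem e_inj : Function.Injective e := by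
  intro x y h
  funext i
  have := congrFun h i
  simp only [e] at this
  cases hx : x i <;> cases hy : y i <;> simp_all

theorem continuous_e : Continuous e := by
  refine continuous_pi fun i => ?_
  exact (continuous_of_discreteTopology (f := fun b : Bool => if b then (1:ℤ) else 0)).comp
    (continuous_apply i)

/-- Codes of the operations. -/
abbrev Code : Type := Σ kr : ℕ × ℕ, Fin kr.1 → Fin kr.2 → ℤ

/-- The operation with a given code: `k` integer combinations of `r` points, followed by zeros. -/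
def opOf (s : Code) : Op T where
  r := s.1.2
  w := fun z i => if h : i < s.1.1 then ∑ a, s.2 ⟨i, h⟩ a • e (z a) else 0
  cont := by
    refine continuous_pi fun i => ?_
    by_cases h : i < s.1.1
    · simp only [h, dite_true]
      refine continuous_finsetSum _ fun a _ => ?_
      have h1 : Continuous fun z : Fin s.1.2 → C => e (z a) := continuous_e.comp (continuous_apply a)
      have h2 : Continuous fun x : ℕ → ℤ => s.2 ⟨i, h⟩ a • x :=
        continuous_pi fun j => (continuous_of_discreteTopology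
          (f := fun n : ℤ => s.2 ⟨i, h⟩ a • n)).comp (continuous_apply j)
      exact h2.comp h1
    · simp only [h, dite_false]
      exact continuous_const

theorem exists_code : ∃ c : ℕ → Code, Function.Surjective c := by
  have : Nonempty Code := ⟨⟨(0, 0), fun i => i.elim0⟩⟩
  exact exists_surjective_nat Code

/-- All operations. -/
noncomputable def ops (n : ℕ) : Op T := opOf (exists_code.choose n)

/-- The sequences with finitely many nonzero terms, all in the group generated by `e '' X`. -/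
def Fs (X : Set C) : Set T :=
  {v | ∃ k, (∀ i < k, v i ∈ AddSubgroup.closure (e '' X)) ∧ ∀ i, k ≤ i → v i = 0}

theorem exists_finsupp (X : Set C) {v : ℕ → ℤ} (hv : v ∈ AddSubgroup.closure (e '' X)) :
    ∃ l : C →₀ ℤ, (∀ x ∈ l.support, x ∈ X) ∧ (l.sum fun x n => n • e x) = v := by
  classical
  induction hv using AddSubgroup.closure_induction with
  | mem v h =>
    obtain ⟨x, hx, rfl⟩ := h
    refine ⟨Finsupp.single x 1, fun y hy => ?_, by simp⟩
    have := Finsupp.support_single_subset hy
    rw [Finset.mem_singleton] at this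
    rw [this]; exact hx
  | zero => exact ⟨0, by simp, by simp⟩
  | add v w _ _ h1 h2 =>
    obtain ⟨l, h3, h4⟩ := h1
    obtain ⟨l', h5, h6⟩ := h2
    refine ⟨l + l', fun y hy => ?_, ?_⟩
    · rcases Finset.mem_union.mp (Finsupp.support_add hy) with h | h
      · exact h3 y h
      · exact h5 y h
    · rw [Finsupp.sum_add_index' (by simp) (by intro a b c; rw [add_smul]), h4, h6]
  | neg v _ h1 =>
    obtain ⟨l, h3, h4⟩ := h1
    refine ⟨-l, fun y hy => h3 y (by simpa using hy), ?_⟩
    rw [Finsupp.sum_neg_index (by simp), ← h4, Finsupp.sum, Finsupp.sum, ← Finset.sum_neg_distrib]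
    exact Finset.sum_congr rfl fun x _ => by rw [neg_smul]

theorem WW_ops (X : Set C) : WW ops X = Fs X := by
  classical
  apply subset_antisymm
  · rintro v ⟨n, z, hz, rfl⟩
    generalize hs : exists_code.choose n = s at *
    have hop : ops n = opOf s := by rw [ops, hs]
    have key : ∀ (o : Op T) (ho : o = opOf s) (z : Fin o.r → C), (∀ a, z a ∈ X) → o.w z ∈ Fs X := by
      rintro _ rfl z hz
      refine ⟨s.1.1, fun i hi => ?_, fun i hi => ?_⟩
      · show (if h : i < s.1.1 then ∑ a, s.2 ⟨i, h⟩ a • e (z a) else 0) ∈ _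
        rw [dif_pos hi]
        refine sum_mem fun a _ => ?_
        have h5 : e (z a) ∈ AddSubgroup.closure (e '' X) :=
          AddSubgroup.subset_closure (mem_image_of_mem e (hz a))
        exact zsmul_mem h5 _
      · show (if h : i < s.1.1 then ∑ a, s.2 ⟨i, h⟩ a • e (z a) else 0) = _
        rw [dif_neg (not_lt.mpr hi)]
    exact key _ hop z hz
  · rintro v ⟨k, h1, h2⟩
    choose l hl1 hl2 using fun i : Fin k => exists_finsupp X (h1 i i.2)
    let F : Finset C := Finset.univ.biUnion fun i => (l i).support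
    have hF : ∀ i, (l i).support ⊆ F := fun i x hx => Finset.mem_biUnion.mpr ⟨i, Finset.mem_univ _, hx⟩
    have hFX : ∀ x ∈ F, x ∈ X := by
      intro x hx
      obtain ⟨i, _, hi⟩ := Finset.mem_biUnion.mp hx
      exact hl1 i x hi
    let s : Code := ⟨(k, F.card), fun i a => l i (F.equivFin.symm a)⟩
    obtain ⟨n, hn⟩ := exists_code.choose_spec s
    have hop : ops n = opOf s := by rw [ops, hn]
    have key : ∀ (o : Op T) (ho : o = opOf s), ∃ z : Fin o.r → C, (∀ a, z a ∈ X) ∧ o.w z = v := by
      rintro _ rfl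
      refine ⟨fun a => (F.equivFin.symm a : C), fun a => hFX _ (F.equivFin.symm a).2, ?_⟩
      funext i
      show (if h : i < k then ∑ a : Fin F.card, l ⟨i, h⟩ (F.equivFin.symm a) •
        e (F.equivFin.symm a : C) else 0) = _
      by_cases hi : i < k
      · rw [dif_pos hi, ← hl2 ⟨i, hi⟩, Finsupp.sum_of_support_subset _ (hF _) _ (by simp),
          Equiv.sum_comp F.equivFin.symm (fun x : F => l ⟨i, hi⟩ x • e (x : C)),
          Finset.sum_coe_sort F (fun x => l ⟨i, hi⟩ x • e x)]
      · rw [dif_neg hi, h2 i (not_lt.mp hi)]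
    obtain ⟨z, hz1, hz2⟩ := key _ hop
    exact ⟨n, z, hz1, hz2⟩

/-- The selection property for the traces of Borel sets on a set `A`. -/
def GammaSel (A : Set T) : Prop :=
  ∀ B : ℕ → ℕ → Set T, (∀ n m, MeasurableSet (B n m)) →
    (∀ n, ∀ F : Set T, F.Finite → F ⊆ A → ∃ m, F ⊆ B n m) →
    ∃ f : ℕ → ℕ, ∀ g ∈ A, ∀ᶠ n in atTop, g ∈ B n (f n)

theorem mk_borel_le : #{s : Set T // MeasurableSet s} ≤ 𝔠 := by
  obtain ⟨b, hb, hgen⟩ := (inferInstance : MeasurableSpace.CountablyGenerated T).isCountablyGenerated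
  have h := MeasurableSpace.cardinal_measurableSet_le_continuum (s := b)
    ((le_aleph0_iff_set_countable.mpr hb).trans aleph0_le_continuum)
  rw [← hgen] at h
  exact h

/-- The tasks. -/
abbrev Task : Type := (ℕ → ℕ → {s : Set T // MeasurableSet s}) × (ℕ → C)

theorem mk_task : #Task ≤ 𝔠 := by
  have h1 : #(ℕ → ℕ → {s : Set T // MeasurableSet s}) ≤ 𝔠 := by
    simp only [mk_pi, prod_const, lift_id, mk_nat]
    calc (#{s : Set T // MeasurableSet s} ^ ℵ₀) ^ ℵ₀ ≤ (𝔠 ^ ℵ₀) ^ ℵ₀ :=
          Cardinal.power_le_power_right (Cardinal.power_le_power_right mk_borel_le)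
      _ = 𝔠 := by rw [continuum_power_aleph0, continuum_power_aleph0]
  have h2 : #(ℕ → C) ≤ 𝔠 := by
    simp only [mk_pi, prod_const, lift_id, mk_nat]
    simp
  calc #Task = #(ℕ → ℕ → {s : Set T // MeasurableSet s}) * #(ℕ → C) := by
        simp only [Cardinal.mk_prod, lift_id]
    _ ≤ 𝔠 * 𝔠 := mul_le_mul' h1 h2
    _ = 𝔠 := continuum_mul_self

/-- Under the continuum hypothesis there is an uncountable set of points with the selection
property for all finite tuples from the group it generates. -/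
theorem main (CH : (𝔠 : Cardinal.{0}) = ℵ₁) : ∃ X : Set C, ¬ X.Countable ∧ GammaSel (Fs X) := by
  classical
  obtain ⟨r, wo, hr⟩ := Cardinal.exists_ord_eq Task
  have hcount : ∀ i : Task, {j | r j i}.Countable := by
    intro i
    rw [← le_aleph0_iff_set_countable, ← lt_aleph_one_iff, ← CH]
    exact lt_of_lt_of_le (Cardinal.card_typein_lt i hr) mk_task
  let Dn : Task → Cond → Prop := fun t q =>
    ((∃ n, ∃ F : Set T, F.Finite ∧ F ⊆ WW ops q.Y ∧ ∀ m, ¬ F ⊆ (t.1 n m : Set T)) ∨
      ∃ f : ℕ → ℕ, ∀ g ∈ WW ops (pts q), ∀ᶠ n in atTop, g ∈ (t.1 n (f n) : Set T)) ∧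
    ∃ y ∈ q.Y, y ∉ range t.2
  have hD : ∀ t p, ∃ q, Le q p ∧ Dn t q := by
    intro t p
    obtain ⟨p', hp', y, hy, hyS⟩ := dense_point p (countable_range t.2)
    obtain ⟨q, hq, h1⟩ := dense_task ops (fun n m => (t.1 n m : Set T)) (fun n m => (t.1 n m).2) p'
    exact ⟨q, hq.trans hp', h1, y, hq.sub hy, hyS⟩
  have : Nonempty Cond := ⟨⟨fun _ => Emb.id, ∅, countable_empty⟩⟩
  obtain ⟨g, hg1, hg2⟩ := generic Le Le.refl (fun _ _ _ h h' => h.trans h')
    (fun p h => lower_bound h) r hcount Dn hD
  let X : Set C := ⋃ t, (g t).Y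
  have hX : ∀ t, X ⊆ pts (g t) := by
    intro t x hx
    obtain ⟨t', ht'⟩ := mem_iUnion.mp hx
    rcases trichotomous_of r t t' with h | h | h
    · rcases (hg2 _ _ h).new x ht' with h1 | ⟨i, hi⟩
      · exact Or.inl h1
      · exact Or.inr (mem_iUnion.mpr ⟨i, hi⟩)
    · subst h; exact Or.inl ht'
    · exact Or.inl ((hg2 _ _ h).sub ht')
  have t0 : ℕ → ℕ → {s : Set T // MeasurableSet s} := fun _ _ => ⟨∅, MeasurableSet.empty⟩
  refine ⟨X, ?_, ?_⟩
  · intro hc
    have hne : X.Nonempty := by
      obtain ⟨_, y, hy, _⟩ := hg1 (t0, fun _ _ => false)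
      exact ⟨y, mem_iUnion.mpr ⟨_, hy⟩⟩
    obtain ⟨s, hs⟩ := hc.exists_eq_range hne
    obtain ⟨_, y, hy, hyS⟩ := hg1 (t0, s)
    apply hyS
    show y ∈ range s
    rw [← hs]
    exact mem_iUnion.mpr ⟨_, hy⟩
  · intro B hB hcov
    rw [← WW_ops] at hcov ⊢
    rcases (hg1 (fun n m => ⟨B n m, hB n m⟩, fun _ _ => false)).1 with ⟨n, F, hF, hFY, hno⟩ | ⟨f, hf⟩
    · exfalso
      obtain ⟨m, hm⟩ := hcov n F hF (hFY.trans (WW_mono _ (subset_iUnion (fun t => (g t).Y) _)))
      exact hno m hm
    · exact ⟨f, fun v hv => hf v (WW_mono _ (hX _) hv)⟩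

end Pool.Agent.U111.BGMain
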