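import Pool.Agent.H65R4.KU

set_option autoImplicit false

/-!
# Iterated group jumps of equality are not essentially countable

`W G H = (2^G)^H` carries the action of the Polish group `G^H`; a Baire category argument shows that
no Borel map `f` from `W G H` to a Polish space maps every orbit into a countable set and is such
that the orbit-type relation is recovered from the values of `f`.
-/

namespace Pool.Agent.U111.GJump

open Set Filter Topology

variable {G H : Type} [Group G]

/-- the space `(2^G)^H` -/
abbrev W (G H : Type) : Type := H → G → Bool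

/-- `p` acts on `w` row by row -/
def act (p : H → G) (w : W G H) : W G H := fun h g => w h ((p h)⁻¹ * g)

/-- `w` on `S`, `z` off `S` -/
noncomputable def mix (S : Finset H) (w z : W G H) : W G H := by
  classical exact fun h => if h ∈ S then w h else z h

theorem mix_of_mem {S : Finset H} {w z : W G H} {h : H} (hh : h ∈ S) : mix S w z h = w h := by
  simp [mix, hh]

theorem mix_of_notMem {S : Finset H} {w z : W G H} {h : H} (hh : h ∉ S) : mix S w z h = z h := by
  simp [mix, hh]

/-- a row shift is a homeomorphism of `2^G` -/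
def shiftHomeo (g0 : G) : (G → Bool) ≃ₜ (G → Bool) where
  toFun u := fun g => u (g0⁻¹ * g)
  invFun u := fun g => u (g0 * g)
  left_inv u := by funext g; simp
  right_inv u := by funext g; simp
  continuous_toFun := continuous_pi fun g => continuous_apply _
  continuous_invFun := continuous_pi fun g => continuous_apply _

/-- the action of a fixed `p` is a homeomorphism -/
def actHomeo (p : H → G) : W G H ≃ₜ W G H := Homeomorph.piCongrRight fun h => shiftHomeo (p h)

theorem actHomeo_apply (p : H → G) (w : W G H) : actHomeo p w = act p w := rfl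

theorem act_mul (p q : H → G) (w : W G H) : act p (act q w) = act (p * q) w := by
  funext h g
  simp [act, mul_assoc]

theorem continuous_act_left [TopologicalSpace G] [DiscreteTopology G] (w : W G H) :
    Continuous fun p : H → G => act p w := by
  refine continuous_pi fun h => continuous_pi fun g => ?_
  exact (continuous_of_discreteTopology (f := fun a : G => w h (a⁻¹ * g))).comp
    (continuous_apply h)

theorem continuous_act [TopologicalSpace G] [DiscreteTopology G] :
    Continuous fun q : (H → G) × W G H => act q.1 q.2 := by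
  refine continuous_pi fun h => continuous_pi fun g => ?_
  have h1 : Continuous fun q : (H → G) × W G H => (q.1 h, q.2 h) :=
    ((continuous_apply h).comp continuous_fst).prodMk ((continuous_apply h).comp continuous_snd)
  have h2 : Continuous fun r : G × (G → Bool) => r.2 (r.1⁻¹ * g) := by
    rw [continuous_discrete_rng]
    intro b
    have : (fun r : G × (G → Bool) => r.2 (r.1⁻¹ * g)) ⁻¹' {b} =
        ⋃ a : G, ({a} : Set G) ×ˢ ((fun u : G → Bool => u (a⁻¹ * g)) ⁻¹' {b}) := by
      ext ⟨a, u⟩
      simp
    rw [this]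
    refine isOpen_iUnion fun a => (isOpen_discrete _).prod ?_
    exact (isOpen_discrete _).preimage (continuous_apply _)
  exact h2.comp h1

theorem isOpenMap_act [TopologicalSpace G] [DiscreteTopology G] :
    IsOpenMap fun q : W G H × (H → G) => act q.2 q.1 := by
  intro O hO
  have : (fun q : W G H × (H → G) => act q.2 q.1) '' O =
      ⋃ p : H → G, actHomeo p '' {w | (w, p) ∈ O} := by
    ext v
    simp only [mem_image, Prod.exists, mem_iUnion, mem_ofPred_eq]
    constructor
    · rintro ⟨w, p, h1, h2⟩
      exact ⟨p, w, h1, h2⟩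
    · rintro ⟨p, w, h1, h2⟩
      exact ⟨w, p, h1, h2⟩
  rw [this]
  refine isOpen_iUnion fun p => ?_
  refine (actHomeo p).isOpenMap _ ?_
  exact hO.preimage (by fun_prop : Continuous fun w : W G H => (w, p))

theorem continuous_mix (S : Finset H) :
    Continuous fun q : W G H × W G H => mix S q.1 q.2 := by
  refine continuous_pi fun h => ?_
  by_cases hh : h ∈ S
  · simp only [mix_of_mem hh]
    exact (continuous_apply h).comp continuous_fst
  · simp only [mix_of_notMem hh]
    exact (continuous_apply h).comp continuous_snd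

/-- shuffling homeomorphism -/
noncomputable def shuffle (S : Finset H) : W G H × W G H ≃ₜ W G H × W G H where
  toFun q := (mix S q.1 q.2, mix S q.2 q.1)
  invFun q := (mix S q.1 q.2, mix S q.2 q.1)
  left_inv q := by
    refine Prod.ext ?_ ?_ <;> funext h <;> by_cases hh : h ∈ S <;>
      simp [mix_of_mem, mix_of_notMem, hh]
  right_inv q := by
    refine Prod.ext ?_ ?_ <;> funext h <;> by_cases hh : h ∈ S <;>
      simp [mix_of_mem, mix_of_notMem, hh]
  continuous_toFun := (continuous_mix S).prodMk ((continuous_mix S).comp continuous_swap)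
  continuous_invFun := (continuous_mix S).prodMk ((continuous_mix S).comp continuous_swap)

theorem isOpenMap_mix (S : Finset H) :
    IsOpenMap fun q : W G H × W G H => mix S q.1 q.2 := by
  have : (fun q : W G H × W G H => mix S q.1 q.2) = Prod.fst ∘ (shuffle S) := rfl
  rw [this]
  exact isOpenMap_fst.comp (shuffle S).isOpenMap

/-- a property of generic points holds somewhere -/
theorem ex_res {X : Type} [TopologicalSpace X] [BaireSpace X] [Nonempty X] {P : X → Prop}
    (h : ∀ᶠ x in residual X, P x) : ∃ x, P x :=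
  (dense_of_mem_residual h).nonempty

/-- Kuratowski-Ulam in the form used here. -/
theorem ku {X Y : Type} [TopologicalSpace X] [TopologicalSpace Y] [SecondCountableTopology Y]
    {P : X → Y → Prop} (h : ∀ᶠ q in residual (X × Y), P q.1 q.2) :
    ∀ᶠ x in residual X, ∀ᶠ y in residual Y, P x y := by
  have h1 : IsMeagre {q : X × Y | ¬ P q.1 q.2} := by
    rw [IsMeagre]
    filter_upwards [h] with q hq
    simpa using hq
  filter_upwards [Pool.Agent.H65R4.ku_meagre h1] with x hx
  rw [IsMeagre] at hx
  filter_upwards [hx] with y hy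
  simpa using hy

theorem ev_mix [Countable G] [Countable H] {C : Set (W G H)} (hC : C ∈ residual (W G H)) :
    ∀ᶠ w in residual (W G H), ∀ S : Finset H, ∀ᶠ z in residual (W G H), mix S w z ∈ C := by
  rw [eventually_countable_forall]
  intro S
  refine ku (P := fun w z => mix S w z ∈ C) ?_
  exact (tendsto_residual_of_isOpenMap (continuous_mix S) (isOpenMap_mix S)).eventually hC

theorem ev_act [TopologicalSpace G] [DiscreteTopology G] [Countable G] [Countable H]
    {C : Set (W G H)} (hC : C ∈ residual (W G H)) :
    ∀ᶠ w in residual (W G H), ∀ᶠ p in residual (H → G), act p w ∈ C := by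
  refine ku (P := fun w p => act p w ∈ C) ?_
  exact (tendsto_residual_of_isOpenMap (continuous_act.comp continuous_swap)
    isOpenMap_act).eventually hC

/-- in an infinite group finite sets can be moved apart -/
theorem exists_move [Infinite G] (A B : Finset G) : ∃ g : G, ∀ a ∈ A, g * a ∉ B := by
  classical
  have hfin : {g : G | ∃ a ∈ A, g * a ∈ B}.Finite := by
    refine ((A ×ˢ B).finite_toSet.image fun q => q.2 * q.1⁻¹).subset ?_
    rintro g ⟨a, ha, hb⟩
    exact ⟨(a, g * a), by simp [ha, hb], by simp⟩
  obtain ⟨g, hg⟩ := hfin.infinite_compl.nonempty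
  refine ⟨g, fun a ha hb => hg ⟨a, ha, hb⟩⟩

/-- basic open sets of `2^G` -/
theorem exists_basic {V : Set (G → Bool)} (hV : IsOpen V) {u : G → Bool} (hu : u ∈ V) :
    ∃ A : Finset G, ∀ v : G → Bool, (∀ a ∈ A, v a = u a) → v ∈ V := by
  obtain ⟨A, t, h1, h2⟩ := isOpen_pi_iff.1 hV u hu
  refine ⟨A, fun v hv => h2 ?_⟩
  intro a ha
  rw [hv a ha]
  exact (h1 a ha).2

/-- generic points have dense orbits -/
theorem ev_dense [Countable G] [Infinite G] :
    ∀ᶠ u in residual (G → Bool), ∀ V : Set (G → Bool), IsOpen V → V.Nonempty →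
      ∃ g0 : G, (fun g => u (g0⁻¹ * g)) ∈ V := by
  have h1 : ∀ᶠ u in residual (G → Bool), ∀ V ∈ TopologicalSpace.countableBasis (G → Bool),
      ∃ g0 : G, (fun g => u (g0⁻¹ * g)) ∈ V := by
    rw [eventually_countable_ball (TopologicalSpace.countable_countableBasis _)]
    intro V hV
    have hVo := TopologicalSpace.isOpen_of_mem_countableBasis hV
    obtain ⟨v, hv⟩ := TopologicalSpace.nonempty_of_mem_countableBasis hV
    have hop : IsOpen {u : G → Bool | ∃ g0 : G, (fun g => u (g0⁻¹ * g)) ∈ V} := by
      have : {u : G → Bool | ∃ g0 : G, (fun g => u (g0⁻¹ * g)) ∈ V} =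
          ⋃ g0 : G, shiftHomeo g0 ⁻¹' V := by
        ext u
        simp [shiftHomeo]
      rw [this]
      exact isOpen_iUnion fun g0 => hVo.preimage (shiftHomeo g0).continuous
    refine residual_of_dense_open hop ?_
    rw [dense_iff_inter_open]
    rintro U hU ⟨u, hu⟩
    obtain ⟨A, hA⟩ := exists_basic hU hu
    obtain ⟨B, hB⟩ := exists_basic hVo hv
    obtain ⟨g1, hg1⟩ := exists_move B A
    classical
    let x : G → Bool := fun g => if g ∈ A then u g else v (g1⁻¹ * g)
    refine ⟨x, hA x fun a ha => by simp [x, ha], g1⁻¹, hB _ fun b hb => ?_⟩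
    have := hg1 b hb
    simp [x, this]
  filter_upwards [h1] with u hu V hV hne
  obtain ⟨v, hv⟩ := hne
  obtain ⟨V', hV', hvV', hsub⟩ :=
    (TopologicalSpace.isBasis_countableBasis (G → Bool)).exists_subset_of_mem_open hv hV
  obtain ⟨g0, hg0⟩ := hu V' hV'
  exact ⟨g0, hsub hg0⟩

theorem ev_rows [Countable G] [Countable H] [Infinite G] :
    ∀ᶠ w in residual (W G H), ∀ h : H, ∀ V : Set (G → Bool), IsOpen V → V.Nonempty →
      ∃ g0 : G, (fun g => w h (g0⁻¹ * g)) ∈ V := by
  rw [eventually_countable_forall]
  intro h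
  have h1 : Tendsto (fun w : W G H => w h) (residual (W G H)) (residual (G → Bool)) :=
    tendsto_residual_of_isOpenMap (continuous_apply h) (isOpenMap_eval h)
  exact h1.eventually (ev_dense (G := G))

/-- a Borel map is continuous on a residual set, in the form used here -/
theorem exists_cont {X Y : Type} [TopologicalSpace X] [MeasurableSpace X] [BorelSpace X]
    [BaireSpace X] [TopologicalSpace Y] [SecondCountableTopology Y] [MeasurableSpace Y]
    [OpensMeasurableSpace Y] {f : X → Y} (hf : Measurable f) :
    ∃ (C : Set X) (U : Set Y → Set X), C ∈ residual X ∧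
      (∀ V ∈ TopologicalSpace.countableBasis Y, IsOpen (U V)) ∧
      ∀ x ∈ C, ∀ V ∈ TopologicalSpace.countableBasis Y, (f x ∈ V ↔ x ∈ U V) := by
  have h : ∀ V ∈ TopologicalSpace.countableBasis Y, ∃ U : Set X, IsOpen U ∧
      ∀ᶠ x in residual X, (f x ∈ V ↔ x ∈ U) := by
    intro V hV
    obtain ⟨U, hU, hVU⟩ := (hf
      (TopologicalSpace.isOpen_of_mem_countableBasis hV).measurableSet).residualEq_isOpen
    refine ⟨U, hU, ?_⟩
    exact eventuallyEq_set.1 hVU
  choose! U hU hV using h
  refine ⟨{x | ∀ V ∈ TopologicalSpace.countableBasis Y, (f x ∈ V ↔ x ∈ U V)}, U, ?_, hU,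
    fun x hx => hx⟩
  have := (eventually_countable_ball (TopologicalSpace.countable_countableBasis Y)).2 hV
  exact this

/-- The main lemma. -/
theorem main [Countable G] [Countable H] [Infinite G] [Infinite H] {Y : Type} [TopologicalSpace Y]
    [T1Space Y] [SecondCountableTopology Y] [MeasurableSpace Y] [OpensMeasurableSpace Y]
    [MeasurableSpace (W G H)] [BorelSpace (W G H)]
    (f : W G H → Y) (hf : Measurable f)
    (hcount : ∀ w : W G H, (range fun p : H → G => f (act p w)).Countable)
    (R : W G H → W G H → Prop)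
    (hR : ∀ v w, f v = f w → R v w)
    (hRc : ∀ v, ∀ h : H, {u : G → Bool | ∃ w, R v w ∧ w h = u}.Countable) : False := by
  classical
  let _ : TopologicalSpace G := ⊥
  have : DiscreteTopology G := ⟨rfl⟩
  obtain ⟨C, U, hC, hUo, hCU⟩ := exists_cont hf
  -- the good set
  have hgood : {w : W G H | w ∈ C ∧ (∀ S : Finset H, ∀ᶠ z in residual (W G H), mix S w z ∈ C) ∧
      ∀ h : H, ∀ V : Set (G → Bool), IsOpen V → V.Nonempty →
        ∃ g0 : G, (fun g => w h (g0⁻¹ * g)) ∈ V} ∈ residual (W G H) := by
    filter_upwards [hC, ev_mix hC, ev_rows (G := G) (H := H)] with w h1 h2 h3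
    exact ⟨h1, h2, h3⟩
  set C' := {w : W G H | w ∈ C ∧ (∀ S : Finset H, ∀ᶠ z in residual (W G H), mix S w z ∈ C) ∧
      ∀ h : H, ∀ V : Set (G → Bool), IsOpen V → V.Nonempty →
        ∃ g0 : G, (fun g => w h (g0⁻¹ * g)) ∈ V} with hC'
  obtain ⟨w, hw⟩ := ex_res (ev_act hgood)
  -- a non-meagre fibre
  obtain ⟨y, hy⟩ : ∃ y : Y, ¬ IsMeagre {p : H → G | act p w ∈ C' ∧ f (act p w) = y} := by
    by_contra hcon
    push Not at hcon
    have hD := hcount w
    have h1 : IsMeagre (⋃ y ∈ range fun p : H → G => f (act p w),
        {p : H → G | act p w ∈ C' ∧ f (act p w) = y}) :=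
      isMeagre_biUnion hD fun y _ => hcon y
    have h2 : ∀ᶠ p in residual (H → G), False := by
      rw [IsMeagre] at h1
      filter_upwards [h1, hw] with p h3 h4
      apply h3
      simp only [mem_iUnion]
      exact ⟨f (act p w), ⟨p, rfl⟩, h4, rfl⟩
    exact (ex_res h2).elim fun _ h => h
  set A := {p : H → G | act p w ∈ C' ∧ f (act p w) = y} with hA
  have hint : (interior (closure A)).Nonempty := by
    rw [nonempty_iff_ne_empty]
    intro h
    exact hy (IsNowhereDense.isMeagre h)
  -- a point of `A` in the interior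
  obtain ⟨p0, hp0i, hp0A⟩ : ∃ p0, p0 ∈ interior (closure A) ∧ p0 ∈ A := by
    obtain ⟨q, hq⟩ := hint
    obtain ⟨p0, h1, h2⟩ := mem_closure_iff.1 (interior_subset hq) _ isOpen_interior hq
    exact ⟨p0, h1, h2⟩
  obtain ⟨S, hS⟩ : ∃ S : Finset H, ∀ p : H → G, (∀ h ∈ S, p h = p0 h) → p ∈ closure A := by
    obtain ⟨S, t, h1, h2⟩ := isOpen_pi_iff.1 isOpen_interior p0 hp0i
    refine ⟨S, fun p hp => interior_subset (h2 ?_)⟩
    intro h hh
    rw [hp h hh]
    exact (h1 h hh).2
  set w' := act p0 w with hw'
  have hw'C : w' ∈ C' := hp0A.1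
  -- density
  have hdense : ∀ v : W G H, (∀ h ∈ S, v h = w' h) → ∀ O : Set (W G H), IsOpen O → v ∈ O →
      ∃ p ∈ A, act p w ∈ O := by
    intro v hv O hO hvO
    -- first find `p ∈ P_S` with `act p w' ∈ O`
    obtain ⟨I, t, h1, h2⟩ := isOpen_pi_iff.1 hO v hvO
    have hex : ∀ h : H, ∃ g0 : G, (h ∈ I → h ∉ S → (fun g => w' h (g0⁻¹ * g)) ∈ t h) := by
      intro h
      by_cases hI : h ∈ I
      · obtain ⟨g0, hg0⟩ := hw'C.2.2 h (t h) (h1 h hI).1 ⟨v h, (h1 h hI).2⟩
        exact ⟨g0, fun _ _ => hg0⟩
      · exact ⟨1, fun h' => absurd h' hI⟩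
    choose r hr using hex
    let q : H → G := fun h => if h ∈ S then 1 else r h
    have hq : act q w' ∈ O := by
      apply h2
      intro h hh
      by_cases hhS : h ∈ S
      · have : act q w' h = v h := by
          rw [hv h hhS]
          funext g
          simp [act, q, hhS]
        rw [this]
        exact (h1 h hh).2
      · have : act q w' h = fun g => w' h ((r h)⁻¹ * g) := by
          funext g
          simp [act, q, hhS]
        rw [this]
        exact hr h hh hhS
    rw [hw', act_mul] at hq
    have hcl : q * p0 ∈ closure A := hS _ fun h hh => by simp [q, hh]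
    have hOp : IsOpen {p : H → G | act p w ∈ O} := hO.preimage (continuous_act_left w)
    obtain ⟨p, h3, h4⟩ := mem_closure_iff.1 hcl _ hOp hq
    exact ⟨p, h4, h3⟩
  -- `f` is constant on `C` above `w'|S`
  have hconst : ∀ v ∈ C, (∀ h ∈ S, v h = w' h) → f v = y := by
    intro v hvC hv
    by_contra hne
    obtain ⟨V, hV, hvV, hsub⟩ :=
      (TopologicalSpace.isBasis_countableBasis Y).exists_subset_of_mem_open
        (show f v ∈ ({y} : Set Y)ᶜ from hne) isOpen_compl_singleton
    have h1 : v ∈ U V := (hCU v hvC V hV).1 hvV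
    obtain ⟨p, hpA, hpU⟩ := hdense v hv (U V) (hUo V hV) h1
    have h2 : f (act p w) ∈ V := (hCU _ hpA.1.1 V hV).2 hpU
    exact hsub h2 hpA.2
  have hgen : ∀ᶠ z in residual (W G H), f (mix S w' z) = y := by
    filter_upwards [hw'C.2.1 S] with z hz
    exact hconst _ hz fun h hh => mix_of_mem hh
  obtain ⟨z0, hz0⟩ := ex_res hgen
  obtain ⟨h1, hh1⟩ := Infinite.exists_notMem_finset S
  have hc := hRc (mix S w' z0) h1
  have hmeag : IsMeagre {z : W G H | z h1 ∈ {u : G → Bool | ∃ w, R (mix S w' z0) w ∧ w h1 = u}} := by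
    have : {z : W G H | z h1 ∈ {u : G → Bool | ∃ w, R (mix S w' z0) w ∧ w h1 = u}} =
        ⋃ u ∈ {u : G → Bool | ∃ w, R (mix S w' z0) w ∧ w h1 = u}, {z : W G H | z h1 = u} := by
      ext z
      simp only [mem_ofPred_eq, mem_iUnion, exists_prop, exists_eq_right']
    rw [this]
    refine isMeagre_biUnion hc fun u _ => ?_
    refine IsNowhereDense.isMeagre ?_
    have hcl : IsClosed {z : W G H | z h1 = u} := isClosed_eq (continuous_apply h1) continuous_const
    rw [IsNowhereDense, hcl.closure_eq]
    rw [← not_nonempty_iff_eq_empty]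
    rintro ⟨z, hz⟩
    obtain ⟨I, t, h2, h3⟩ := isOpen_pi_iff.1 isOpen_interior z hz
    -- change one value of the row `h1`
    by_cases hI : h1 ∈ I
    · obtain ⟨B, hB⟩ := exists_basic (h2 h1 hI).1 (h2 h1 hI).2
      obtain ⟨g, hg⟩ := Infinite.exists_notMem_finset B
      let u' : G → Bool := Function.update (z h1) g (!(z h1 g))
      have hu' : u' ∈ t h1 := hB u' fun a ha => by
        have : a ≠ g := fun h => hg (h ▸ ha)
        simp [u', this]
      have h4 : Function.update z h1 u' ∈ interior {z : W G H | z h1 = u} := by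
        apply h3
        intro h hh
        by_cases hhh : h = h1
        · subst hhh
          simpa using hu'
        · rw [Function.update_of_ne hhh]
          exact (h2 h hh).2
      have h5 : u' = u := by
        have := interior_subset h4
        simpa using this
      have h6' : z ∈ {z : W G H | z h1 = u} := interior_subset hz
      have h6 : z h1 = u := h6'
      have h7 := congrFun (h6.trans h5.symm) g
      simp [u'] at h7
    · have h4 : Function.update z h1 (fun g => !(u g)) ∈ interior {z : W G H | z h1 = u} := by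
        apply h3
        intro h hh
        have hhh : h ≠ h1 := fun h' => hI (h' ▸ hh)
        rw [Function.update_of_ne hhh]
        exact (h2 h hh).2
      have h5 := interior_subset h4
      simp only [mem_ofPred_eq, Function.update_self] at h5
      have h6 := congrFun h5 1
      simp at h6
  obtain ⟨z, hz1, hz2⟩ := ex_res (hgen.and hmeag)
  apply hz2
  refine ⟨mix S w' z, hR _ _ (hz0.trans hz1.symm), mix_of_notMem hh1⟩

end Pool.Agent.U111.GJump
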